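import Pool.Agent.H5.Diffuse

open Set Filter Topology MeasureTheory Function InnerProductSpace
open scoped NNReal ENNReal InnerProductSpace
open Pool.Agent.H5.Torus Pool.Agent.H5.Diffuse ContinuousLinearMap

namespace Pool.Agent.Results.MP_fe632d_an.Classify

variable {X : Type} [MeasurableSpace X]

theorem total {ι : Type} {m : Measure X} (u : ι → Hs m)
    (h1 : ∀ k l, rankOne ℂ (u k) (u l) ∈ (D' m).topologicalClosure)
    (r3 : ∀ ξ, (∀ k, ⟪u k, ξ⟫_ℂ = 0) → ξ = 0) (a : Op m) (ha : IsCompactOperator a) :
    a ∈ Cu m := by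
  have h3 : ∀ y, (∀ k, rankOne ℂ (u k) y ∈ (D' m).topologicalClosure) →
      ∀ x, rankOne ℂ y x ∈ (D' m).topologicalClosure := by
    intro y h x
    let K := (D' m).topologicalClosure.comap (smulRightL ℂ _ _ (innerSL ℂ y)).toLinearMap
    have hK : IsClosed (K : Set (Hs m)) :=
      (D' m).isClosed_topologicalClosure.preimage (smulRightL ℂ _ _ (innerSL ℂ y)).continuous
    have := hK.completeSpace_coe
    have h4 : K = ⊤ := by
      rw [← Submodule.orthogonal_eq_bot_iff, eq_bot_iff]
      exact fun ξ hξ => r3 ξ fun k => hξ _ (h k)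
    have h7 : rankOne ℂ x y ∈ (D' m).topologicalClosure := (h4.ge Submodule.mem_top : x ∈ K)
    rw [← adjoint_rankOne, ← star_eq_adjoint]
    exact map_mem_closure continuous_star h7 fun c hc => ⟨hc.2, by rw [star_star]; exact hc.1⟩
  obtain ⟨w, b, -⟩ := exists_hilbertBasis ℂ (Hs m)
  have h8 : a ∈ (D' m).topologicalClosure := all_compact b _ (D' m).isClosed_topologicalClosure
    (fun _ _ => h3 _ (fun k => h3 _ (fun l => h1 l k) _) _) a ha
  refine closure_mono ?_ h8
  rintro c ⟨⟨l, hl⟩, l', hl'⟩
  exact ⟨max l l', fun ξ => (hl ξ).trans (by gcongr; exact le_max_left _ _),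
    fun ξ => (hl' ξ).trans (by gcongr; exact le_max_right _ _)⟩

variable [StandardBorelSpace X] (m : Measure X) [SigmaFinite m]

noncomputable def d (x : X) : Hs m :=
  indicatorConstLp 2 (measurableSet_singleton x) measure_singleton_lt_top.ne (1 : ℂ)

theorem d_ae (x : X) : d m x =ᵐ[m] ({x} : Set X).indicator fun _ => (1 : ℂ) :=
  indicatorConstLp_coeFn

theorem d_inner (x : X) (ξ : Hs m) : ⟪d m x, ξ⟫_ℂ = m.real {x} • ξ x := by
  rw [d, L2.inner_indicatorConstLp_one, integral_singleton]

theorem d_E (x y : X) (hy : m {y} ≠ 0) : E (rankOne ℂ (d m x) (d m y)) := by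
  refine ⟨(m {x} / m {y}).toNNReal, fun ξ => ?_⟩
  rw [rankOne_apply, d_inner, ENNReal.coe_toNNReal
    (ENNReal.div_ne_top measure_singleton_lt_top.ne hy)]
  by_cases h4 : ξ y = 0
  · refine le_trans (measure_mono_ae (t := ∅) ?_) (by simp)
    filter_upwards [Lp.coeFn_smul (m.real {y} • ξ y) (d m x)] with z hz h6
    exact h6 (hz.trans (by simp [h4]))
  · refine le_trans (measure_mono_ae (t := {x}) ?_) ?_
    · filter_upwards [Lp.coeFn_smul (m.real {y} • ξ y) (d m x), d_ae m x] with z hz h5 h6
      by_contra h7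
      have : z ≠ x := h7
      exact h6 (hz.trans (by simp [h5, this]))
    · refine (ENNReal.div_mul_cancel hy measure_singleton_lt_top.ne).ge.trans ?_
      gcongr
      exact singleton_subset_iff.2 h4

theorem result : (∀ a : Op m, IsCompactOperator a → a ∈ Cu m) ↔
    (∀ x, m {x} = 0) ∨ m {x | m {x} = 0} = 0 := by
  have hr : ∀ x, m {x} ≠ 0 → 0 < m.real {x} := fun x h =>
    ENNReal.toReal_pos h measure_singleton_lt_top.ne
  refine ⟨fun H => ?_, ?_⟩
  · by_contra h
    obtain ⟨h1, h2⟩ := not_or.1 h
    obtain ⟨x, hx⟩ := not_forall.1 h1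
    have hD : MeasurableSet {x | m {x} = 0} := by
      have := (Measure.countable_meas_level_set_pos (μ := m) (g := id) measurable_id).measurableSet
      convert this.compl using 1
      ext y
      simp
    obtain ⟨J, hJ, hs, j0, j1⟩ := Measure.exists_subset_measure_lt_top (μ := m) (r := 0) hD
      (pos_iff_ne_zero.2 h2)
    have : IsFiniteMeasure (m.restrict J) := ⟨by simpa using j1⟩
    have : NullSingletonClass (m.restrict J) := ⟨fun y => by
      rw [Measure.restrict_apply (measurableSet_singleton y)]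
      by_cases hy : y ∈ J
      · exact measure_mono_null inter_subset_left (hs hy)
      · rw [singleton_inter_eq_empty.2 hy, measure_empty]⟩
    obtain ⟨g, -, c, hg, -⟩ := exists_h (m.restrict J)
    have hM : ∀ s t, MeasurableSet (g ⁻¹' Ioc s t ∩ J) := fun s t =>
      (hg.measurable measurableSet_Ioc).inter hJ
    have hS : ∀ s t, m (g ⁻¹' Ioc s t ∩ J) = volume (Ioc s t ∩ Icc 0 c) := fun s t => by
      rw [← Measure.restrict_apply (hg.measurable measurableSet_Ioc),
        hg.measure_preimage measurableSet_Ioc.nullMeasurableSet,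
        Measure.restrict_apply measurableSet_Ioc]
    have hc : 0 < c := by
      have := hg.measure_preimage MeasurableSet.univ.nullMeasurableSet
      simp only [preimage_univ, MeasurableSet.univ, Measure.restrict_apply, univ_inter,
        Real.volume_Icc, sub_zero] at this
      exact ENNReal.ofReal_pos.1 (this ▸ j0)
    let v : ℝ → ℝ → Hs m := fun s t => indicatorConstLp 2 (hM s t)
      ((measure_mono inter_subset_right).trans_lt j1).ne (1 : ℂ)
    have v_ae : ∀ s t, v s t =ᵐ[m] (g ⁻¹' Ioc s t ∩ J).indicator fun _ => (1 : ℂ) :=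
      fun s t => indicatorConstLp_coeFn
    have v_add : ∀ s t, 0 ≤ s → s ≤ t → v 0 t = v 0 s + v s t := fun s t hs h => by
      ext1
      filter_upwards [Lp.coeFn_add (v 0 s) (v s t), v_ae 0 t, v_ae 0 s, v_ae s t] with z a1 a2 a3 a4
      rw [a1, Pi.add_apply, a2, a3, a4, ← Ioc_union_Ioc_eq_Ioc hs h, preimage_union,
        union_inter_distrib_right, indicator_union_of_disjoint
          (((Ioc_disjoint_Ioc_of_le le_rfl).preimage g).mono inter_subset_left inter_subset_left)]
    have v_supp : ∀ s t, m (support (v s t)) ≤ ENNReal.ofReal (t - s) := fun s t => by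
      refine le_trans (measure_mono_ae (t := g ⁻¹' Ioc s t ∩ J) ?_) ?_
      · filter_upwards [v_ae s t] with z hz h
        by_contra h1
        exact h (hz.trans (indicator_of_notMem (show z ∉ g ⁻¹' Ioc s t ∩ J from h1) _))
      · rw [hS, ← Real.volume_Ioc]
        exact measure_mono inter_subset_left
    have h3 : Cu m ⊆ {e | ⟪d m x, e (v 0 c)⟫_ℂ = 0} := by
      refine closure_minimal ?_ (isClosed_eq (by fun_prop) continuous_const)
      rintro e ⟨l, hl, -⟩
      obtain ⟨n, hn⟩ := exists_nat_gt (l * c / m.real {x})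
      have hd : (0 : ℝ) < n := lt_of_le_of_lt (by have := hr x hx; positivity) hn
      have h4 : ∀ s : ℝ, ⟪d m x, e (v s (s + c / n))⟫_ℂ = 0 := fun s => by
        rw [d_inner, smul_eq_zero]
        right
        by_contra h5
        refine ((measure_mono (singleton_subset_iff.2 h5)).trans ((hl _).trans
          (mul_le_mul_right (v_supp _ _) _))).not_gt ?_
        rw [add_sub_cancel_left, ← ENNReal.ofReal_coe_nnreal, ← ENNReal.ofReal_mul l.coe_nonneg,
          ENNReal.ofReal_lt_iff_lt_toReal (by positivity) measure_singleton_lt_top.ne,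
          ← mul_div_assoc, div_lt_iff₀ hd, mul_comm _ (n : ℝ)]
        exact (div_lt_iff₀ (hr x hx)).1 hn
      have h5 : ∀ i : ℕ, ⟪d m x, e (v 0 ((i + 1) * (c / n)))⟫_ℂ = 0 := fun i => by
        induction i with
        | zero => simpa using h4 0
        | succ i ih =>
          have : (0 : ℝ) ≤ (i + 1) * (c / n) := by positivity
          rw [Nat.cast_succ, add_mul _ (1 : ℝ), one_mul,
            v_add _ _ this (le_add_of_nonneg_right (by positivity)), map_add, inner_add_right, ih,
            h4, add_zero]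
      have h6 := h5 (n - 1)
      rw [← Nat.cast_succ, Nat.succ_eq_add_one, Nat.sub_add_cancel (by exact_mod_cast hd),
        mul_div_cancel₀ _ hd.ne'] at h6
      exact h6
    have h5 := h3 (H (rankOne ℂ (d m x) (v 0 c)) ((isCompactOperator_of_locallyCompactSpace_dom
      (innerSL ℂ (v 0 c))).clm_comp (toSpanSingleton ℂ (d m x))))
    simp only [mem_ofPred_eq, rankOne_apply, inner_smul_right, mul_eq_zero,
      inner_self_eq_zero] at h5
    rcases h5 with h5 | h5
    · have : ‖v 0 c‖ = ‖(0 : Hs m)‖ := congrArg norm h5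
      rw [norm_zero, norm_indicatorConstLp two_ne_zero ENNReal.ofNat_ne_top, Measure.real, hS,
        inter_eq_left.2 Ioc_subset_Icc_self] at this
      simp [hc.le, hc.ne'] at this
    · have : ‖d m x‖ = ‖(0 : Hs m)‖ := congrArg norm h5
      rw [norm_zero, d, norm_indicatorConstLp two_ne_zero ENNReal.ofNat_ne_top] at this
      simp [(hr x hx).ne', (hr x hx).le] at this
  · rintro (h | h)
    · exact diffuse m h
    · refine total (fun k : {x // m {x} ≠ 0} => d m k) (fun k l => subset_closure ⟨d_E m _ _ l.2, ?_⟩)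
        fun ξ hξ => Lp.eq_zero_iff_ae_eq_zero.2 ?_
      · rw [star_eq_adjoint, adjoint_rankOne]
        exact d_E m _ _ k.2
      · filter_upwards [measure_eq_zero_iff_ae_notMem.1 h] with y hy
        have := hξ ⟨y, hy⟩
        rw [d_inner, smul_eq_zero] at this
        exact this.resolve_left (hr y hy).ne'

end Pool.Agent.Results.MP_fe632d_an.Classify
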