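import Pool.Agent.H5.Diffuse

open Set Filter Topology MeasureTheory Function InnerProductSpace
open scoped NNReal ENNReal InnerProductSpace
open Pool.Agent.H5.Torus ContinuousLinearMap

namespace Pool.Agent.Results.MP_fe632d_an.Nonzero

theorem result {X : Type} [MeasurableSpace X] [StandardBorelSpace X] (m : Measure X)
    [SigmaFinite m] (hm : m ≠ 0) : ∃ a ∈ Cu m, a ≠ 0 ∧ IsCompactOperator a := by
  have key : ∀ (s : Set X) (hs : MeasurableSet s) (h1 : m s ≠ ∞), m s ≠ 0 →
      (indicatorConstLp 2 hs h1 (1 : ℂ) : Hs m) ≠ 0 := fun s hs h1 h0 h => by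
    have := congrArg norm h
    rw [norm_zero, norm_indicatorConstLp two_ne_zero ENNReal.ofNat_ne_top] at this
    simp [Measure.real, ENNReal.toReal_eq_zero_iff, h0, h1] at this
  have hc : ∀ u : Hs m, IsCompactOperator (rankOne ℂ u u) := fun u =>
    (isCompactOperator_of_locallyCompactSpace_dom (innerSL ℂ u)).clm_comp (toSpanSingleton ℂ u)
  by_cases h : ∀ x, m {x} = 0
  · obtain ⟨s, hs, -, h0, h1⟩ := Measure.exists_subset_measure_lt_top (μ := m) (r := 0)
      MeasurableSet.univ (by simpa [pos_iff_ne_zero] using hm)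
    have := key s hs h1.ne h0.ne'
    exact ⟨_, Pool.Agent.H5.Diffuse.diffuse m h _ (hc _), rankOne_ne_zero this this, hc _⟩
  · obtain ⟨x, hx⟩ := not_forall.1 h
    have h1 := key {x} (measurableSet_singleton x) (measure_singleton_lt_top).ne hx
    have h2 : (indicatorConstLp 2 (measurableSet_singleton x) (measure_singleton_lt_top).ne
      (1 : ℂ) : Hs m) =ᵐ[m] ({x} : Set X).indicator fun _ => (1 : ℂ) := indicatorConstLp_coeFn
    generalize (indicatorConstLp 2 (measurableSet_singleton x) (measure_singleton_lt_top).ne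
      (1 : ℂ) : Hs m) = u at h1 h2
    have h3 : Expands m (rankOne ℂ u u) 1 := fun ξ => by
      rw [rankOne_apply, ENNReal.coe_one, one_mul]
      by_cases h4 : ξ x = 0
      · have : ⟪u, ξ⟫_ℂ = 0 := by
          rw [L2.inner_def]
          refine integral_eq_zero_of_ae ?_
          filter_upwards [h2] with y hy
          rw [hy]
          by_cases h5 : y = x
          · simp [h5, h4]
          · simp [h5]
        refine measure_mono_ae ?_
        filter_upwards [Lp.coeFn_smul ⟪u, ξ⟫_ℂ u] with y hy h6
        exact (h6 (hy.trans (by simp [this]))).elim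
      · refine measure_mono_ae ?_
        filter_upwards [Lp.coeFn_smul ⟪u, ξ⟫_ℂ u, h2] with y hy h5 h6 h7
        refine h6 (hy.trans ?_)
        have : y ≠ x := fun h8 => h4 (h8 ▸ h7)
        simp [h5, this]
    refine ⟨_, subset_closure ⟨1, h3, ?_⟩, rankOne_ne_zero h1 h1, hc _⟩
    rw [star_eq_adjoint, adjoint_rankOne]
    exact h3

end Pool.Agent.Results.MP_fe632d_an.Nonzero
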